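import Pool.Agent.Y229.PS.Weak

/-!
# Twisted topological zeta functions of functions with stably nondegenerate germs

A germ `f(x)`, `f(0) = 0`, `x = (x_1, …, x_N)`, of a holomorphic function (or a formal power series) is
called stably nondegenerate if for some `k` the function `f(x) + y_1 z_1 + ⋯ + y_k z_k` becomes, in
suitable formal coordinates at the origin and up to a unit factor, a polynomial which is nondegenerate with respect to the
compact faces of its Newton polyhedron (the usual local nondegeneracy). Examples are the functions which are nondegenerate in suitable coordinates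
(`k = 0`), and those which become nondegenerate after an embedding of the germ `(ℂ ^ N, 0)` as a
nondegenerate complete intersection (third part of the theorem), for example
`(x_2 ^ 2 - x_1 ^ 3) ^ 2 + x_1 ^ 5 x_2` with `z = x_2 ^ 2 - x_1 ^ 3`, and the products of powers of the
members of a nondegenerate system of functions.

Let `X` be a nonsingular variety and `f : X → 𝔸 ^ 1` a function all of whose germs at the points of
`X_0 = {f = 0}` are stably nondegenerate (smooth points and normal crossings are); the germs are
formal power series in local coordinates of `X`. Then for every `e ≥ 1` and every pole `s0` of the twisted topological zeta function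
`Z^(e)(s)` of `f`, either `e = 1` and `s0 = -1` (and `1` is an eigenvalue of the monodromy at a smooth
point), or the local Bernstein-Sato polynomial `b` of `f` at some point satisfies `b(s0 - i) = 0` for
some natural number `i`, so that `exp(2 π i s0)` is an eigenvalue of the monodromy of `f` at some
point (Malgrange, Kashiwara).

By additivity of the Euler characteristic
`Z^(e)(s) = ∑_t χ(S_t) Z^(e)_t(s)`
for a finite partition of `X_0` in locally closed sets `S_t` such that `Z^(e)_t` is the local twisted
zeta function of `f` at every point of `S_t`. The local twisted zeta functions `Z^(e)_f` of `f` and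
`Z^(e)` of `f + y_1 z_1 + ⋯ + y_k z_k` at the origin are related by `Z^(e)_f(s) = Z^(e)(s - k)` for
`e ≥ 2` and `1 - Z_f(s) = (1 - Z(s - k)) s (s - k + 1) / ((s - k) (s + 1))` for `e = 1` (integrate over
the `y_i` first: for an arc with `ord z = c` the value `f + y z` has the order and the angular
component of `f` if `ord f ≤ c`, and is otherwise distributed like `t ^ c y`), and `Z^(e)` is given by
the formula of Denef and Loeser for the Newton polyhedron.

Method: a functional equation of `f` gives one of `f + ∑ y_i z_i`, which is transported to the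
coordinates where the polynomial is nondegenerate; there it is deformed to very general
coefficients (`Y229.CF`), and the relation obtained gives the pole part of the zeta function.
-/

set_option autoImplicit false

namespace Pool.Agent.Results.MP_b22d1f_ag.StablyNondegenerateGermsTwisted

open Polynomial Pool.Agent.H628R4.TZ Pool.Agent.H628R4.TP Pool.Agent.W425.SM
open Pool.Agent.Y229.CF (NondegIC NondegC)
open Pool.Agent.Y229.GL (topZetaTwistedLocal glue)
open Pool.Agent.Y229.RE (unstab ex)
open Pool.Agent.Y229.PS (StabNondegP IsFormalBFunction)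
open Pool.Agent.W749.JI (fam)

/-- **The monodromy conjecture for the twisted topological zeta functions of all functions whose
germs are stably nondegenerate in suitable formal coordinates.**

First part: for `t = 1, …, n` let the germ of `f` at a point `p_t` of `X_0` be, in local coordinates,
the formal power series `f_t ≠ 0`, `f_t(0) = 0`, in `N` variables, let `f_t` be stably
nondegenerate (`StabNondegP (f t) (k t) (v t)`: `f_t(x) + ∑_{i ≤ k_t} y_i z_i` becomes in suitable
formal coordinates at the origin, up to a unit factor, a polynomial `g_t = ∑_j a_j X ^ (v t j)` which is nondegenerate for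
the compact faces of its Newton polyhedron), and let `b_t ≠ 0` satisfy a functional equation
`b_t(s) f_t ^ s = P(s) f_t ^ (s + 1)` with formal power series coefficients (`IsFormalBFunction`; for
example the local Bernstein-Sato polynomial of `f` at `p_t`). Let `topZetaTwistedLocal (v t) (R t) e`
be the twisted local topological zeta function of `g_t` at the origin, computed on the toric
embedded resolution given by any smooth fan `R t` on which `(X ^ (v t j))_j` is principal, and
`Z^(e)_t = unstab (k t) e (topZetaTwistedLocal (v t) (R t) e)` that of `f` at `p_t`. Then for every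
`e ≥ 1` and every pole `s0` with negative real part (all the poles are negative rational numbers)
of `Z^(e) = c + [e = 1] c' / (s + 1) + ∑_t χ_t Z^(e)_t`, `c`, `c'`, `χ_t` arbitrary integers
(`glue e c c' χ Z`), either `e = 1` and `s0 = -1` or `b_t(s0 - i) = 0` for some `t` and some `i ∈ ℕ`.

Second part (sharper statement for `k_t = 0`): if the polynomial `g` is nondegenerate for the compact
faces, and `b` satisfies a functional equation of `g` (`IsLocalBFunction`, the same for polynomials), then
for some `K` and all `e ≥ 1` the function `(s + 1) b(s) b(s - 1) ⋯ b(s - K) Z^(e)(s)` is a polynomial,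
`Z^(e)` the twisted local zeta function of `g`, without the factor `s + 1` if `e ≥ 2`.

Third part: let `fam π m c i = ∑_{π j = i} c_j x ^ (m_j)`, `i = 0, …, k`, be polynomials in `N + k`
variables `x, z` without constant terms: `F = fam π m c 0`, `l_i = fam π m c i` for `i ≥ 1`. Let
`(F, l_1, …, l_k)` be nondegenerate for the compact faces of their Newton polyhedra (`NondegIC`), let
the matrix of the `∂ l_i / ∂ z_j` be invertible at the origin, so that `V = {l = 0}` is smooth with
coordinates `x`, and let `f ∈ ℂ[[x]]` be the restriction of `F` to `V`: `F = f + ∑ q_i l_i` with formal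
power series `q_i`, `q_i(0) = 0`. Then `f` is stably nondegenerate, with the exponents of
`F + ∑ y_i l_i` (`ex π m`). -/
theorem result :
    (∀ {N n : ℕ} (f : Fin n → MvPowerSeries (Fin N) ℂ), (∀ t, f t ≠ 0) →
      (∀ t, MvPowerSeries.constantCoeff (f t) = 0) → ∀ b : Fin n → ℂ[X], (∀ t, b t ≠ 0) →
      (∀ t, IsFormalBFunction (f t) (b t)) →
      ∀ k r : Fin n → ℕ, (∀ t, 1 ≤ r t) → ∀ v : ∀ t, Fin (r t) → Fin (N + (k t + k t)) → ℕ,
      (∀ t, StabNondegP (f t) (k t) (v t)) →
      ∀ R : ∀ t, SmoothFan (N + (k t + k t)), (∀ t, Principal (v t) (R t)) →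
      ∀ e : ℕ, 1 ≤ e → ∀ (c c' : ℤ) (χ : Fin n → ℤ) (s0 : ℂ), s0.re < 0 →
        (glue e c c' χ fun t => unstab (k t) e
          (topZetaTwistedLocal (v t) (R t) e)).denom.eval s0 = 0 →
        (e = 1 ∧ s0 = -1) ∨ ∃ t, ∃ i : ℕ, (b t).eval (s0 - i) = 0) ∧
    (∀ {N r : ℕ}, 1 ≤ r → ∀ (v : Fin r → Fin N → ℕ) (a : Fin r → ℂ), Function.Injective v →
      (∀ j, v j ≠ 0) → NondegC v a → ∀ R : SmoothFan N, Principal v R → ∀ b : ℂ[X], b ≠ 0 →
      Pool.Agent.H628R4.TP.IsLocalBFunction (sparse v a) b →
      ∃ K : ℕ, ∀ e : ℕ, 1 ≤ e → ∃ P : ℂ[X], algebraMap ℂ[X] (RatFunc ℂ)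
        ((if e = 1 then X + 1 else 1) * ∏ i ∈ Finset.range (K + 1), b.comp (X - C (i : ℂ))) *
        topZetaTwistedLocal v R e = algebraMap ℂ[X] (RatFunc ℂ) P) ∧
    (∀ {N k r : ℕ} (π : Fin r → Fin (k + 1)) (m : Fin r → Fin (N + k) → ℕ) (c : Fin r → ℂ),
      1 ≤ r → (∀ j j', π j = π j' → m j = m j' → j = j') → (∀ j, m j ≠ 0) → NondegIC π m c →
      (Matrix.of fun i j : Fin k => MvPolynomial.coeff (Finsupp.single (Fin.natAdd N j) 1)
        (fam π m c i.succ)).det ≠ 0 →
      ∀ (f : MvPowerSeries (Fin N) ℂ) (q : Fin k → MvPowerSeries (Fin (N + k)) ℂ),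
        (∀ i, MvPowerSeries.constantCoeff (q i) = 0) →
        (fam π m c 0 : MvPowerSeries (Fin (N + k)) ℂ) =
          MvPowerSeries.rename (Fin.castAdd k) f +
            ∑ i, q i * (fam π m c i.succ : MvPowerSeries (Fin (N + k)) ℂ) →
        StabNondegP f k (ex π m)) := by
  refine ⟨?_, ?_, ?_⟩
  · intro N n f hf0 hf b hb0 hb k r hr v hv R hR e he c c' χ s0 hre hs
    exact Pool.Agent.Y229.PS.germs_stabP f hf0 hf b hb0 hb k r hr v hv R hR e he c c' χ s0 hre hs
  · intro N r hr v a hv hv0 hnd R hR b hb0 hb
    exact (Pool.Agent.Y229.GL.tw_local hr v a hv hv0 hnd R hR b hb0 hb).2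
  · intro N k r π m c hr hinj hm hnd hdet f q hq hF
    exact Pool.Agent.Y229.PS.stabP_of_emb hr π m hinj hm c hnd hdet f q hq hF

end Pool.Agent.Results.MP_b22d1f_ag.StablyNondegenerateGermsTwisted
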