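import Pool.Agent.Y229.LP3

/-!
# The twisted monodromy conjecture for products of powers of forms, and sums of ideals

Let `F = ∏ t, F_t ^ a t`, `F_t = ∑_j y_{t,j} f_{t,j}(x)`, with further variables `y_{t,j}`, and let
`I = ∏ t, I_t ^ a t`, `I_t = (f_{t,j})_j`. Suppose that `I` is obtained by sums `I' + I''` and products
`I' I''` in disjoint sets of variables from the following ideals: powers `(x ^ m)`; all non-zero ideals of
`ℂ[x, y]`; ideals of `ℂ[x₀, x₁, x₂]` generated by forms of the same degree, three of which are
algebraically independent; ideals generated by forms of the same degree without a common zero outside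
the origin; principal ideals `(g)`, where `g` is a polynomial in any number of variables, `g(0) = 0`,
which is nondegenerate with respect to its Newton polytope. Then for every `d` and every pole `s₀` of
the twisted topological zeta function `Z^(d)` of `F` there is a root `s₀ - i`, `i ∈ ℕ`, of the
Bernstein-Sato polynomial of `F`; by the theorem of Malgrange and Kashiwara, `exp(2 π i s₀)` is an
eigenvalue of the monodromy of `F`.

Let `Y` be a log resolution of `I`. Then `Y` times the space of the `y_{t,j}` is an embedded resolution
of `F`: locally on `Y`, `F_t` is one of the `f_{t,j}` times a linear form in the `y_{t,j}`, one of whose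
coefficients is a unit; its zero locus `H_t` has the numerical data `(a t, 1)`. Over a point of `Y`,
the Euler characteristic of the intersection of the `H_t` with `t ∈ S` and the complements of the `H_t`
with `t ∉ S` is `1` if `S` is the set of all `t`, and `0` otherwise. So the twisted zeta function
`Z^(d)` of `F` is zero, unless `d` divides all the `a t`; in this case `d` divides all multiplicities, and
`Z^(d) = Z' ∏ t, 1 / (1 + a t s)`, where `Z'` is the topological zeta function of the ideal `I`.

Method. (1) The topological zeta function of an ideal `I` is `Z(s) = 1 - s ∫_0^∞ V(t) exp(- s t) dt` with an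
exponential polynomial `V`, the limit of the volumes of the sets `ord I ≥ t / (L - 1)` for `L → 1`; for
the sum of ideals in disjoint sets of variables these functions are multiplied, so that the poles
are added. (2) If `α` and `β` are roots of all `b` which satisfy functional equations of `I` and `J`, then
`α + β` is such a root for `I + J`, and `α` and `β` are such roots for `I J`. (3) A functional equation
of `F` gives one of `I`, and the roots `-1 / a t`.
-/

set_option autoImplicit false

namespace Pool.Agent.Results.MP_b22d1f_ag.SumsOfIdealsTwisted

open MvPolynomial Pool.Agent.W574.SM Pool.Agent.W574.RO Pool.Agent.H628R4.TP Pool.Agent.TH192.DT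
  Pool.Agent.Y229

/-- **The twisted monodromy conjecture for `F = ∏ t, F_t ^ a t`, where the ideal `∏ t, I_t ^ a t` is
obtained by sums and products of ideals in disjoint sets of variables.** Let the `f_{t,j}` be
polynomials in finitely many variables `x_i`, let `F_t = ∑_j y_{t,j} f_{t,j}(x)` (`blockForm`) and
`F = ∏ t, F_t ^ a t` (`powProd`), `a t ≥ 1`. Let `Z'` be the global topological zeta function of the
ideal `I = ∏ t, I_t ^ a t`, `I_t = (f_{t,j})_j`, which is generated by the family `powFam a f`, where
`I` and `Z'` are obtained by the rules for sums and products in disjoint sets of variables (`TopSP`)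
from the ideals in the class `WeakGlobal`. For a natural number `d`, the twisted topological zeta
function `Z^(d)` of `F` is `Z' ∏ t, 1 / (1 + a t s)` if `d` divides all `a t`, and `0` otherwise. Let `b`
satisfy a functional equation `b(s) F ^ s = P(s) F ^ (s + 1)`, where `P(s)` is a differential operator
with polynomial coefficients. Then for every `d` and every pole `s₀` of `Z^(d)` there is `i ∈ ℕ` with
`b(s₀ - i) = 0`. -/
theorem result {σ T : Type} [Finite σ] [Fintype T] [DecidableEq T] [Nonempty T] {κ : T → Type}
    [∀ t, Fintype (κ t)] (a : T → ℕ) (ha : ∀ t, 1 ≤ a t)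
    (f : (t : T) → κ t → MvPolynomial σ ℂ) (Z' : RatFunc ℂ)
    (h : TopSP WeakGlobal (powFam a f) Z') (b : Polynomial ℂ)
    (hb : IsBFunction (powProd a f) b) (d : ℕ) (Zd : RatFunc ℂ)
    (hd : (∀ t, d ∣ a t) → Zd = Z' * ∏ t, fac (a t) 1) (hd' : (¬ ∀ t, d ∣ a t) → Zd = 0) (s₀ : ℂ)
    (hs : Zd.denom.eval s₀ = 0) : ∃ i : ℕ, b.eval (s₀ - i) = 0 := by
  classical
  by_cases hc : ∀ t, d ∣ a t
  · rw [hd hc] at hs
    exact weak_global_pow a ha f Z' h b hb s₀ hs
  · rw [hd' hc, RatFunc.denom_zero, Polynomial.eval_one] at hs
    exact absurd hs one_ne_zero

end Pool.Agent.Results.MP_b22d1f_ag.SumsOfIdealsTwisted
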